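import Mathlib
import Pool.Agent.J4.H65.AT.Fin

/-!
# MP_dddec0_nt: almost prime triplets (and k-tuples) in almost all intervals of the optimal length

For every `k` there is a fixed `δ > 0` such that for every admissible set `B` of `k` shifts (for example
`{0, 2, 6}` and `{0, 4, 6}`): for all but `C X / λ` of the integers `x` of an arbitrary interval
`[Y, Y + X)` the interval `(x, x + λ (log X)^k]` contains between `c λ` and `C λ` integers `m` such that
all the numbers `m + b`, `b ∈ B`, are free of prime factors up to `X ^ δ`; so these have at most `A / δ`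
prime factors if they are at most `X ^ A`.
-/

set_option autoImplicit false

open Finset

namespace Pool.Agent.Results.MP_dddec0_nt.AlmostPrimeTuples

/-- none of the numbers `m + b`, `b ∈ B`, has a prime factor `≤ z` -/
def Rough (B : Finset ℕ) (z : ℝ) (m : ℕ) : Prop :=
  ∀ b ∈ B, ∀ p : ℕ, p.Prime → (p : ℝ) ≤ z → ¬ p ∣ m + b

/-- for every prime `p` some residue class is avoided by all the `-b`, `b ∈ B` -/
def Admissible (B : Finset ℕ) : Prop := ∀ p : ℕ, p.Prime → ∃ r : ℕ, ∀ b ∈ B, ¬ p ∣ r + b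

open Classical in
/-- the number of the integers `m` in `(x, x + λ (log X)^k]`, `k = |B|`, for which all the `m + b`,
`b ∈ B`, are free of prime factors `≤ X ^ δ` -/
noncomputable def count (B : Finset ℕ) (δ lam : ℝ) (X x : ℕ) : ℕ :=
  ((Ioc x (x + ⌊lam * Real.log X ^ B.card⌋₊)).filter (fun m => Rough B ((X : ℝ) ^ δ) m)).card

open Classical in
theorem result (k : ℕ) (hk : 1 ≤ k) : ∃ δ : ℝ, 0 < δ ∧
    (∀ (B : Finset ℕ) (X m : ℕ) (A : ℝ), 2 ≤ X → Rough B ((X : ℝ) ^ δ) m → ∀ b ∈ B, 0 < m + b →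
      ((m + b : ℕ) : ℝ) ≤ (X : ℝ) ^ A → ((m + b).primeFactorsList.length : ℝ) ≤ A / δ) ∧
    ∀ B : Finset ℕ, B.card = k → Admissible B → ∃ c C : ℝ, 0 < c ∧ ∀ lam : ℝ, 1 ≤ lam →
      ∃ X0 : ℕ, ∀ X : ℕ, X0 ≤ X → ∀ Y : ℕ,
        (((Ico Y (Y + X)).filter (fun x => ¬ (c * lam ≤ (count B δ lam X x : ℝ) ∧
          (count B δ lam X x : ℝ) ≤ C * lam))).card : ℝ) ≤ C * X / lam := by
  obtain ⟨δ, hδ, hmain⟩ := Pool.Agent.J4.H65.AT.main k hk
  refine ⟨δ, hδ, ?_, ?_⟩
  · intro B X m A hX hR b hb hm hA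
    have hX1 : (1 : ℝ) < X := by exact_mod_cast (by omega : 1 < X)
    have hX0 : (0 : ℝ) < X := by linarith
    have hXδ : (1 : ℝ) < (X : ℝ) ^ δ := Real.one_lt_rpow hX1 hδ
    have h1 : ∀ p ∈ (m + b).primeFactorsList, (X : ℝ) ^ δ ≤ (p : ℝ) := by
      intro p hp
      by_contra h
      exact hR b hb p (Nat.prime_of_mem_primeFactorsList hp) (not_le.1 h).le
        (Nat.dvd_of_mem_primeFactorsList hp)
    have h2 : ∀ l : List ℕ, (∀ p ∈ l, (X : ℝ) ^ δ ≤ (p : ℝ)) →
        ((X : ℝ) ^ δ) ^ l.length ≤ ((l.prod : ℕ) : ℝ) := by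
      intro l
      induction l with
      | nil => intro _; simp
      | cons a l ih =>
        intro h
        rw [List.length_cons, List.prod_cons, pow_succ]
        push_cast
        rw [mul_comm]
        have h3 := ih fun p hp => h p (List.mem_cons_of_mem _ hp)
        rw [← Nat.cast_list_prod]
        exact mul_le_mul (h a (List.mem_cons_self ..)) h3 (by positivity) (Nat.cast_nonneg _)
    have h3 := h2 _ h1
    rw [Nat.prod_primeFactorsList (by omega), ← Real.rpow_natCast, ← Real.rpow_mul hX0.le] at h3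
    have h4 := (Real.rpow_le_rpow_left_iff hX1).1 (h3.trans hA)
    rw [le_div_iff₀ hδ]
    linarith
  · intro B hB hadm
    have hadm' : ∀ p : ℕ, p.Prime → Pool.Agent.H373R2.T7.nuB (Pool.Agent.J4.H65.AT.Hit B) p < p := by
      intro p hp
      obtain ⟨r, hr⟩ := hadm p hp
      unfold Pool.Agent.H373R2.T7.nuB
      have h1 : ((range p).filter (fun r => Pool.Agent.J4.H65.AT.Hit B p r)) ⊆ (range p).erase (r % p) := by
        intro a ha
        rw [mem_filter] at ha
        rw [mem_erase]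
        refine ⟨?_, ha.1⟩
        rintro rfl
        obtain ⟨b, hb, hd⟩ := (Pool.Agent.J4.H65.AT.hit_modc B p r).2 ha.2
        exact hr b hb hd
      have h2 := card_le_card h1
      rw [card_erase_of_mem (mem_range.2 (Nat.mod_lt _ hp.pos)), card_range] at h2
      have := hp.pos
      omega
    obtain ⟨c, C, hc, _, h⟩ := hmain B hB hadm'
    refine ⟨c, C, hc, fun lam hlam => ?_⟩
    obtain ⟨X0, hX0⟩ := h lam hlam
    refine ⟨X0, fun X hX Y => ?_⟩
    refine le_trans ?_ (hX0 X hX Y)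
    have hcount : ∀ n, 1 ≤ n → (count B δ lam X (Y + n - 1) : ℝ) =
        ∑ j ∈ range ⌊lam * Real.log X ^ k⌋₊, Pool.Agent.J4.H65.AT.ff B ⌊(X : ℝ) ^ δ⌋₊ (Y + j + n) := by
      intro n hn
      unfold count
      rw [hB, card_eq_sum_ones, sum_filter]
      push_cast
      have hff : ∀ m, Pool.Agent.J4.H65.AT.ff B ⌊(X : ℝ) ^ δ⌋₊ m =
          if Rough B ((X : ℝ) ^ δ) m then (1 : ℝ) else 0 := by
        intro m
        unfold Pool.Agent.J4.H65.AT.ff
        have hiff : (∀ p ∈ Pool.Agent.H373R2.T7.pz ⌊(X : ℝ) ^ δ⌋₊, ¬ Pool.Agent.J4.H65.AT.Hit B p m) ↔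
            Rough B ((X : ℝ) ^ δ) m := by
          have h0 : (0 : ℝ) ≤ (X : ℝ) ^ δ := by positivity
          constructor
          · intro h b hb p hp hpz hd
            exact h p (Pool.Agent.H373R2.T7.mem_pz.2 ⟨Nat.le_floor hpz, hp⟩) ⟨b, hb, hd⟩
          · rintro h p hp ⟨b, hb, hd⟩
            have hp' := Pool.Agent.H373R2.T7.mem_pz.1 hp
            exact h b hb p hp'.2 ((Nat.le_floor_iff h0).1 hp'.1) hd
        by_cases hr : Rough B ((X : ℝ) ^ δ) m
        · rw [if_pos hr, if_pos (hiff.2 hr)]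
        · rw [if_neg hr, if_neg (fun h => hr (hiff.1 h))]
      symm
      apply sum_bij (fun j _ => Y + j + n)
      · intro j hj
        rw [mem_range] at hj
        rw [mem_Ioc]
        omega
      · intro i _ j _ hij
        omega
      · intro m hm
        rw [mem_Ioc] at hm
        refine ⟨m - (Y + n), ?_, by omega⟩
        rw [mem_range]
        omega
      · intro j _
        rw [hff]
    have hle : ((Ico Y (Y + X)).filter (fun x => ¬ (c * lam ≤ (count B δ lam X x : ℝ) ∧
          (count B δ lam X x : ℝ) ≤ C * lam))).card ≤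
        ((Icc 1 X).filter (fun n => ¬ (c * lam ≤ ∑ j ∈ range ⌊lam * Real.log X ^ k⌋₊,
          Pool.Agent.J4.H65.AT.ff B ⌊(X : ℝ) ^ δ⌋₊ (Y + j + n) ∧
        ∑ j ∈ range ⌊lam * Real.log X ^ k⌋₊, Pool.Agent.J4.H65.AT.ff B ⌊(X : ℝ) ^ δ⌋₊ (Y + j + n) ≤
          C * lam))).card := by
      apply card_le_card_of_injOn (fun x => x - Y + 1)
      · intro x hx
        rw [mem_coe, mem_filter, mem_Ico] at hx
        rw [mem_coe, mem_filter, mem_Icc]
        have hm : 1 ≤ x - Y + 1 ∧ x - Y + 1 ≤ X := by omega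
        refine ⟨hm, ?_⟩
        have h1 := hcount (x - Y + 1) (by omega)
        rw [show Y + (x - Y + 1) - 1 = x by omega] at h1
        rw [← h1]
        exact hx.2
      · intro x hx x' hx' h
        rw [mem_coe, mem_filter, mem_Ico] at hx hx'
        have h' : x - Y + 1 = x' - Y + 1 := h
        omega
    exact_mod_cast hle

end Pool.Agent.Results.MP_dddec0_nt.AlmostPrimeTuples
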