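import Mathlib
import Pool.Agent.J4.H38.SR3.Uni
import Pool.Agent.J4.H38.SR2.Uni3
import Pool.Agent.J4.H38.SR.Rl

/-!
# Prime triplets `p, p + f (m), p + g (n)` with `P_2`'s, for almost all `m, n ≤ M` and very small `M`

The problem asks for infinitely many prime triplets with the patterns `{0, 2, 6}`, `{0, 4, 6}`. Here the patterns are
`{0, f_1 (m_1), ..., f_k (m_k)}` for arbitrary fixed nonconstant polynomials `f_i` and almost all vectors
`(m_1, ..., m_k)` of `[1, M]^k`, where `M` is only a large multiple of `log x` (for triplets `k = 2`). There are at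
least `c ^ k 𝔖 x / (log x) ^ (k + 1)` primes `p ≤ x` such that all `p + f_i (m_i)` have at most two prime factors,
all of them at least `x ^ (1/7)`, where `𝔖` is the singular series of Hardy and Littlewood of the pattern and `c` an
absolute constant, which depends neither on `k` nor on the polynomials.

More generally, the shifts may be taken from an arbitrary set `A ⊆ [1, x / 2]` with at least `Λ log x` elements, for which
the products of the `1 + C_k / p` over the prime divisors `p` of `a - b` and of `a` are bounded on average over the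
elements `a, b` of `A`.

Method: the large sieve inequality for the shifts of `Pool.Agent.J4.H38.SR3.Fx`, in which the Gram matrix is weighted
by the indicator of the tuples being free of small prime factors, works for an arbitrary set of shifts if the averages
of the local densities of the tuples are bounded.  Richert's weighted sieve of level `111/200 > 1/2` is applied one
shift after the other; the entries of the Gram matrix are estimated beyond the level `1/2` by Poisson summation and
bounds for trilinear Kloosterman sums (`Pool.Agent.J4.H38.SR3`).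
-/

set_option autoImplicit false

open Finset

namespace Pool.Agent.Results.MP_dddec0_nt.PolynomialShiftsTwoPrimeFactors

/-- the number of residue classes modulo `p` occupied by `T` -/
def nu (T : Finset ℕ) (p : ℕ) : ℕ := (T.image (· % p)).card

/-- the factor at `p` of the singular series -/
noncomputable def loc (T : Finset ℕ) (p : ℕ) : ℝ :=
  (1 - (nu T p : ℝ) / p) / (1 - 1 / (p : ℝ)) ^ T.card

/-- the singular series of `T` -/
noncomputable def 𝔖 (T : Finset ℕ) : ℝ := ∏' p : Nat.Primes, loc T p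

open Classical in
/-- the number of the primes `p ≤ x` such that every `p + d`, `d ∈ D`, has at most two prime factors (counted with
multiplicity), all of them at least `x ^ (1/7)` -/
noncomputable def almost (x : ℕ) (D : Finset ℕ) : ℕ :=
  ((Icc 1 x).filter (fun p => p.Prime ∧ ∀ d ∈ D, (p + d).primeFactorsList.length ≤ 2 ∧
    ∀ q ∈ (p + d).primeFactors, (x : ℝ) ^ (1 / 7 : ℝ) ≤ q)).card

/-- if the singular series of the pattern `{0} ∪ D` does not vanish, there are at least
`B 𝔖({0} ∪ D) x / (log x) ^ (k + 1)` primes `p ≤ x` such that the `p + d`, `d ∈ D`, are almost primes as above -/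
def Many (k : ℕ) (B : ℝ) (x : ℕ) (D : Finset ℕ) : Prop :=
  𝔖 (insert 0 D) ≠ 0 → B * 𝔖 (insert 0 D) * (x / Real.log x ^ (k + 1)) ≤ almost x D

/-- the product of the `1 + C / p` over the prime divisors `p` of `n` -/
noncomputable def G (C : ℝ) (n : ℕ) : ℝ := ∏ p ∈ n.primeFactors, (1 + C / (p : ℝ))

section
open Pool.Agent.H387R2.Uni Pool.Agent.J4.H38.SR Pool.Agent.J4.H38.SR2 Pool.Agent.J4.H38.SR3 Filter
open Pool.Agent.H373R2.T7 (pz mem_pz)

theorem CT_eq (T : Finset ℕ) : CT T = 𝔖 T := rfl

theorem almost_eq {x : ℕ} {D : Finset ℕ} : almost x D = pi2 D x := rfl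

lemma gy_le_G {C : ℝ} (hC : 0 ≤ C) (y : ℕ) {n : ℕ} (hn : n ≠ 0) : gy y C n ≤ G C n := by
  unfold gy G
  refine prod_le_prod_of_subset_of_one_le ?_ (fun p _ => by positivity) fun p _ _ => ?_
  · intro p hp
    rw [mem_filter, mem_pz] at hp
    exact Nat.mem_primeFactors.2 ⟨hp.1.2, hp.2, hn⟩
  · have : 0 ≤ C / (p : ℝ) := by positivity
    linarith

lemma not_many {k x : ℕ} {B : ℝ} {D : Finset ℕ} (h : ¬ Many k B x D) :
    Adm (Pool.Agent.Y822.pat D) ∧
      (pi2 D x : ℝ) < B * CT (Pool.Agent.Y822.pat D) * (x / Real.log x ^ (k + 1)) := by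
  unfold Many at h
  rw [Classical.not_imp, not_le, ← CT_eq, almost_eq] at h
  exact ⟨adm_of_ne h.1, h.2⟩

/-- sums over an image -/
lemma sum_image_le' {ι : Type*} (Z : Finset ι) (φ : ι → ℕ) (g : ℕ → ℝ) (hg : ∀ n, 0 ≤ g n) :
    ∑ a ∈ Z.image φ, g a ≤ ∑ z ∈ Z, g (φ z) := by
  classical
  rw [← sum_fiberwise_of_maps_to (fun z hz => mem_image_of_mem φ hz) (fun z => g (φ z))]
  refine sum_le_sum fun a ha => ?_
  obtain ⟨z, hz, rfl⟩ := mem_image.1 ha
  exact single_le_sum (f := fun z => g (φ z)) (fun z _ => hg _) (mem_filter.2 ⟨hz, rfl⟩)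

/-- sums over the pairs of an image -/
lemma sum_image_pairs {ι : Type*} (Z : Finset ι) (φ : ι → ℕ) (g : ℕ × ℕ → ℝ) (hg : ∀ n, 0 ≤ g n) :
    ∑ q ∈ (Z.image φ).offDiag, g q ≤ ∑ w ∈ Z, ∑ z ∈ Z.filter (fun z => φ z ≠ φ w), g (φ z, φ w) := by
  classical
  have h1 : ∑ w ∈ Z, ∑ z ∈ Z.filter (fun z => φ z ≠ φ w), g (φ z, φ w) =
      ∑ p ∈ (Z ×ˢ Z).filter (fun p => φ p.1 ≠ φ p.2), g (φ p.1, φ p.2) := by
    rw [sum_filter, sum_product_right]
    refine sum_congr rfl fun w _ => ?_
    rw [sum_filter]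
  rw [h1]
  have h2 : ∀ p ∈ (Z ×ˢ Z).filter (fun p => φ p.1 ≠ φ p.2), (φ p.1, φ p.2) ∈ (Z.image φ).offDiag := by
    intro p hp
    rw [mem_filter, mem_product] at hp
    rw [mem_offDiag]
    exact ⟨mem_image_of_mem φ hp.1.1, mem_image_of_mem φ hp.1.2, hp.2⟩
  rw [← sum_fiberwise_of_maps_to h2 (fun p => g (φ p.1, φ p.2))]
  refine sum_le_sum fun q hq => ?_
  rw [mem_offDiag] at hq
  obtain ⟨z, hz, hz2⟩ := mem_image.1 hq.1
  obtain ⟨w, hw, hw2⟩ := mem_image.1 hq.2.1
  have h3 : (z, w) ∈ ((Z ×ˢ Z).filter (fun p => φ p.1 ≠ φ p.2)).filter (fun p => (φ p.1, φ p.2) = q) := by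
    rw [mem_filter, mem_filter, mem_product]
    refine ⟨⟨⟨hz, hw⟩, ?_⟩, ?_⟩
    · rw [hz2, hw2]
      exact hq.2.2
    · simp only
      rw [hz2, hw2]
  have h4 := single_le_sum (f := fun p : ι × ι => g (φ p.1, φ p.2)) (fun p _ => hg _) h3
  simp only at h4
  rw [hz2, hw2] at h4
  exact h4

/-- the distance of two values -/
lemma dd_natAbs (a b : ℕ) : dd (a, b) = ((a : ℤ) - b).natAbs := by
  unfold dd
  simp only
  rcases le_total a b with h | h
  · rw [max_eq_right h, min_eq_left h]; omega
  · rw [max_eq_left h, min_eq_right h]; omega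

/-- the criterion -/
theorem crit : ∃ c : ℝ, 0 < c ∧ ∀ k : ℕ, 1 ≤ k → ∃ C : ℝ, 0 < C ∧ ∀ ε K : ℝ, 0 < ε → 0 ≤ K →
    ∃ Λ x₀ : ℝ, 0 < Λ ∧ ∀ x : ℕ, x₀ ≤ x → ∀ H : ℕ, Λ * Real.log x ≤ H → ∀ A ⊆ Icc 1 (x / 2), A.card ≤ H →
      (∀ y : ℕ, ∑ q ∈ A.offDiag, gy y C (dd q) ≤ K * (H : ℝ) ^ 2) →
      (∀ y : ℕ, ∑ a ∈ A, gy y C a ≤ K * H) → ∀ Bad : Finset (Finset ℕ),
      (∀ D ∈ Bad, D ∈ A.powersetCard k ∧ ¬ Many k (c ^ k) x D) → (Bad.card : ℝ) ≤ ε * (H : ℝ) ^ k := by
  obtain ⟨c, hc, h⟩ := almostU2
  refine ⟨c, hc, fun k hk => ?_⟩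
  obtain ⟨k, rfl⟩ : ∃ j, k = j + 1 := ⟨k - 1, by omega⟩
  refine ⟨CK k, ?_, fun ε K hε hK => ?_⟩
  · unfold CK
    positivity
  obtain ⟨Λ, hΛ, h⟩ := h k ε K hε hK
  obtain ⟨N₀, hN₀⟩ := eventually_atTop.1 h
  refine ⟨Λ, N₀, hΛ, fun x hx H hH A hA hAH h2 h1 Bad hBad => ?_⟩
  refine hN₀ x (by exact_mod_cast hx) H hH A (hA.trans (Icc_subset_Icc le_rfl (Nat.div_le_self x 2)))
    (fun a ha => by have := (mem_Icc.1 (hA ha)).2; omega) hAH h2 h1 Bad fun D hD => ?_
  obtain ⟨b1, b2⟩ := hBad D hD
  obtain ⟨b3, b4⟩ := not_many b2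
  exact ⟨b1, b3, b4⟩

/-- the vectors with two equal values are few -/
lemma few_equal {k : ℕ} (f : Fin k → ℕ → ℕ) (hf : ∀ i, Set.InjOn (f i) (Set.Ici 1)) (M : ℕ) :
    ((Fintype.piFinset (fun _ : Fin k => Icc 1 M)).filter
      (fun v => ¬ Function.Injective (fun i => f i (v i)))).card ≤ k ^ 2 * M ^ (k - 1) := by
  classical
  have h1 : (Fintype.piFinset (fun _ : Fin k => Icc 1 M)).filter
      (fun v => ¬ Function.Injective (fun i => f i (v i))) ⊆
      ((univ : Finset (Fin k × Fin k)).filter (fun q => q.1 ≠ q.2)).biUnion (fun q =>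
        (Fintype.piFinset (fun _ : Fin k => Icc 1 M)).filter (fun v => f q.1 (v q.1) = f q.2 (v q.2))) := by
    intro v hv
    rw [mem_filter] at hv
    obtain ⟨hv1, hv2⟩ := hv
    unfold Function.Injective at hv2
    push Not at hv2
    obtain ⟨i, j, hij, hne⟩ := hv2
    rw [mem_biUnion]
    exact ⟨(i, j), mem_filter.2 ⟨mem_univ _, hne⟩, mem_filter.2 ⟨hv1, hij⟩⟩
  refine (card_le_card h1).trans (card_biUnion_le.trans ?_)
  have h2 : ∀ q ∈ (univ : Finset (Fin k × Fin k)).filter (fun q => q.1 ≠ q.2),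
      ((Fintype.piFinset (fun _ : Fin k => Icc 1 M)).filter
        (fun v => f q.1 (v q.1) = f q.2 (v q.2))).card ≤ M ^ (k - 1) := by
    intro q hq
    have hne := (mem_filter.1 hq).2
    have h3 : ((Fintype.piFinset (fun _ : Fin k => Icc 1 M)).filter
        (fun v => f q.1 (v q.1) = f q.2 (v q.2))).card ≤
        (Fintype.piFinset (fun i : Fin k => if i = q.1 then ({1} : Finset ℕ) else Icc 1 M)).card := by
      refine card_le_card_of_injOn (fun v => Function.update v q.1 1) ?_ ?_
      · intro v hv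
        rw [mem_coe, mem_filter, Fintype.mem_piFinset] at hv
        rw [mem_coe, Fintype.mem_piFinset]
        intro i
        simp only
        by_cases hi : i = q.1
        · rw [if_pos hi, hi, Function.update_self]
          exact mem_singleton_self _
        · rw [if_neg hi, Function.update_of_ne hi]
          exact hv.1 i
      · intro v hv w hw h
        rw [mem_coe, mem_filter, Fintype.mem_piFinset] at hv hw
        simp only at h
        have h4 : ∀ i, i ≠ q.1 → v i = w i := by
          intro i hi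
          have := congrFun h i
          rwa [Function.update_of_ne hi, Function.update_of_ne hi] at this
        have h5 : f q.1 (v q.1) = f q.1 (w q.1) := by
          rw [hv.2, hw.2, h4 q.2 hne.symm]
        funext i
        by_cases hi : i = q.1
        · rw [hi]
          exact hf q.1 (mem_Icc.1 (hv.1 q.1)).1 (mem_Icc.1 (hw.1 q.1)).1 h5
        · exact h4 i hi
    refine h3.trans (le_of_eq ?_)
    rw [Fintype.card_piFinset]
    have h6 : ∀ i : Fin k, (if i = q.1 then ({1} : Finset ℕ) else Icc 1 M).card =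
        if i = q.1 then 1 else M := by
      intro i
      split_ifs
      · simp
      · rw [Nat.card_Icc, Nat.add_sub_cancel]
    rw [prod_congr rfl fun i _ => h6 i, prod_ite, prod_const_one, one_mul, prod_const]
    congr 1
    rw [filter_ne', card_erase_of_mem (mem_univ _), card_univ, Fintype.card_fin]
  refine (sum_le_sum h2).trans ?_
  rw [sum_const, smul_eq_mul]
  refine Nat.mul_le_mul_right _ ?_
  refine (card_filter_le _ _).trans (le_of_eq ?_)
  rw [card_univ, Fintype.card_prod, Fintype.card_fin, sq]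

/-- the averages for the values of polynomials -/
lemma poly_hyps {k : ℕ} (F : Fin k → Polynomial ℤ) (f : Fin k → ℕ → ℕ) (hd : ∀ i, 1 ≤ (F i).natDegree)
    (hF : ∀ i m, 1 ≤ m → (f i m : ℤ) = (F i).eval (m : ℤ)) (h0 : ∀ i m, 1 ≤ m → 0 < f i m) {C : ℝ}
    (hC : 0 ≤ C) : ∃ K : ℝ, 0 ≤ K ∧ ∀ M x y : ℕ, 3 ≤ M → Real.log x ≤ M →
      (∀ i, ∀ m ∈ Icc 1 M, f i m ≤ x) →
      (∑ q ∈ (((univ : Finset (Fin k)) ×ˢ Icc 1 M).image (fun q => f q.1 q.2)).offDiag, gy y C (dd q) ≤
        K * ((k * M : ℕ) : ℝ) ^ 2) ∧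
      ∑ a ∈ ((univ : Finset (Fin k)) ×ˢ Icc 1 M).image (fun q => f q.1 q.2), gy y C a ≤
        K * ((k * M : ℕ) : ℝ) := by
  classical
  choose K hK hav using fun i => poly_avg (F i) (hd i) hC
  refine ⟨∑ i, K i, sum_nonneg fun i _ => (hK i).le, fun M x y hM hx hfx => ?_⟩
  have hS0 : 0 ≤ ∑ i, K i := sum_nonneg fun i _ => (hK i).le
  have hM0 : (0 : ℝ) ≤ M := Nat.cast_nonneg _
  rcases Nat.eq_zero_or_pos k with rfl | hk
  · constructor
    · simp
    · simp
  have hk1 : (1 : ℝ) ≤ k := by exact_mod_cast hk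
  constructor
  · refine (sum_image_pairs _ _ (fun q => gy y C (dd q)) fun q => gy_nonneg hC _).trans ?_
    have h1 : ∀ w ∈ (univ : Finset (Fin k)) ×ˢ Icc 1 M,
        ∑ z ∈ ((univ : Finset (Fin k)) ×ˢ Icc 1 M).filter (fun z => f z.1 z.2 ≠ f w.1 w.2),
          gy y C (dd (f z.1 z.2, f w.1 w.2)) ≤ (∑ i, K i) * M := by
      intro w hw
      rw [mem_product] at hw
      rw [sum_filter, sum_product, sum_mul]
      refine sum_le_sum fun i _ => ?_
      have h2 := hav i M y x hM hx (f w.1 w.2 : ℤ) (fun m hm => ?_)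
      · refine le_trans (le_of_eq ?_) h2
        rw [sum_filter]
        refine sum_congr rfl fun m hm => ?_
        have h3 := hF i m (mem_Icc.1 hm).1
        simp only
        rw [← h3, ← dd_natAbs]
        by_cases h4 : f i m = f w.1 w.2
        · rw [if_neg (fun h => h h4), if_neg (fun h => h (by exact_mod_cast h4))]
        · rw [if_pos h4, if_pos (fun h => h4 (by exact_mod_cast h))]
      · rw [← hF i m (mem_Icc.1 hm).1]
        have h3 := hfx i m hm
        have h4 := hfx w.1 w.2 hw.2
        omega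
    refine (sum_le_sum h1).trans ?_
    rw [sum_const, nsmul_eq_mul, card_product, card_univ, Fintype.card_fin, Nat.card_Icc,
      Nat.add_sub_cancel]
    push_cast
    have h5 : (M : ℝ) * 1 ≤ M * k := mul_le_mul_of_nonneg_left hk1 hM0
    calc (k : ℝ) * M * ((∑ i, K i) * M) = (∑ i, K i) * ((k * M) * (M * 1)) := by ring
      _ ≤ (∑ i, K i) * ((k * M) * (M * k)) :=
          mul_le_mul_of_nonneg_left (mul_le_mul_of_nonneg_left h5 (by positivity)) hS0
      _ = _ := by ring
  · refine (sum_image_le' _ _ (gy y C) fun q => gy_nonneg hC _).trans ?_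
    rw [sum_product]
    have h1 : ∀ i ∈ (univ : Finset (Fin k)), ∑ m ∈ Icc 1 M, gy y C (f i m) ≤ K i * M := by
      intro i _
      have h2 := hav i M y x hM hx 0 (fun m hm => ?_)
      · refine le_trans (le_of_eq ?_) h2
        rw [sum_filter]
        refine sum_congr rfl fun m hm => ?_
        have h3 := hF i m (mem_Icc.1 hm).1
        have h4 := h0 i m (mem_Icc.1 hm).1
        rw [← h3, if_pos (by exact_mod_cast h4.ne'), sub_zero, Int.natAbs_natCast]
      · rw [← hF i m (mem_Icc.1 hm).1, sub_zero, Int.natAbs_natCast]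
        exact hfx i m hm
    refine (sum_le_sum h1).trans ?_
    rw [← sum_mul]
    push_cast
    refine mul_le_mul_of_nonneg_left ?_ hS0
    nlinarith

end

open Classical in
/-- The products `𝔖 T` converge and are positive for admissible `T`.  There is a constant `c > 0` such that for all
`k ≥ 1`:

(1) Criterion: there is a `C` such that for all `ε > 0` and `K` there are `Λ`, `x₀` with the following property. For
all integers `x ≥ x₀` and all sets `A ⊆ [1, x / 2]` with at least `Λ log x` elements such that the average of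
`G C (|a - b|)` over the pairs of different elements `a, b` of `A` and the average of `G C a` over the elements are at
most `K`, all but at most `ε |A| ^ k` of the sets `D` of `k` elements of `A` have the property `Many`.

(2) Polynomials: for arbitrary nonconstant integral polynomials `F 1, ..., F k` whose values `f i m` at the
positive integers `m` are positive and different from each other (all polynomials with positive leading
coefficients have these properties after a translation of the variable) and all `ε > 0` there are `Λ`, `x₀` such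
that for all integers `x ≥ x₀` and all `M ≥ Λ log x` for which the values at `1, ..., M` are at most `x / 2`: for all but
at most `ε M ^ k` of the vectors `(v 1, ..., v k)` of `[1, M] ^ k`, the numbers `f 1 (v 1), ..., f k (v k)` are
different, and the set `D` of these numbers has the property `Many`, that is, if `𝔖({0} ∪ D) ≠ 0` there are at least
`c ^ k 𝔖({0} ∪ D) x / (log x) ^ (k + 1)` primes `p ≤ x` such that all `p + d`, `d ∈ D`, have at most two prime
factors, all of them at least `x ^ (1/7)`. -/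
theorem result :
    (∀ T : Finset ℕ, HasProd (fun p : Nat.Primes => loc T p) (𝔖 T) ∧
      ((∀ p : ℕ, p.Prime → nu T p < p) → 0 < 𝔖 T)) ∧
    ∃ c : ℝ, 0 < c ∧ ∀ k : ℕ, 1 ≤ k →
      (∃ C : ℝ, 0 < C ∧ ∀ ε K : ℝ, 0 < ε → ∃ Λ x₀ : ℝ, ∀ x : ℕ, x₀ ≤ x → ∀ A ⊆ Icc 1 (x / 2),
        Λ * Real.log x ≤ A.card →
        ∑ a ∈ A, ∑ b ∈ A.erase a, G C (max a b - min a b) ≤ K * (A.card : ℝ) ^ 2 →
        ∑ a ∈ A, G C a ≤ K * (A.card : ℝ) →
        (((A.powersetCard k).filter (fun D => ¬ Many k (c ^ k) x D)).card : ℝ) ≤ ε * (A.card : ℝ) ^ k) ∧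
      ∀ (F : Fin k → Polynomial ℤ) (f : Fin k → ℕ → ℕ), (∀ i, 1 ≤ (F i).natDegree) →
        (∀ i m, 1 ≤ m → (f i m : ℤ) = (F i).eval (m : ℤ)) → (∀ i m, 1 ≤ m → 0 < f i m) →
        (∀ i, Set.InjOn (f i) (Set.Ici 1)) →
        ∀ ε : ℝ, 0 < ε → ∃ Λ x₀ : ℝ, ∀ x : ℕ, x₀ ≤ x → ∀ M : ℕ, Λ * Real.log x ≤ M →
          (∀ i, ∀ m ∈ Icc 1 M, 2 * f i m ≤ x) →
          (((Fintype.piFinset (fun _ : Fin k => Icc 1 M)).filter (fun v =>
            ¬ (Function.Injective (fun i => f i (v i)) ∧
              Many k (c ^ k) x (univ.image (fun i => f i (v i)))))).card : ℝ) ≤ ε * (M : ℝ) ^ k := by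
  refine ⟨fun T => ⟨Pool.Agent.H387R2.Uni.CT_hasProd T, fun hT =>
    Pool.Agent.J4.H38.SR.CT_pos_of_adm hT⟩, ?_⟩
  obtain ⟨c, hc, hmain⟩ := crit
  refine ⟨c, hc, fun k hk => ?_⟩
  obtain ⟨C, hC, hmain⟩ := hmain k hk
  constructor
  · refine ⟨C, hC, fun ε K hε => ?_⟩
    obtain ⟨Λ, x₀, hΛ, h⟩ := hmain ε (max K 0) hε (le_max_right _ _)
    refine ⟨Λ, x₀, fun x hx A hA hAc h2 h1 => ?_⟩
    have hA0 : ∀ a ∈ A, a ≠ 0 := fun a ha => by
      have := (mem_Icc.1 (hA ha)).1
      omega
    refine h x hx A.card hAc A hA le_rfl (fun y => ?_) (fun y => ?_) _ fun D hD => mem_filter.1 hD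
    · have e1 : ∑ q ∈ A.offDiag, Pool.Agent.J4.H38.SR2.gy y C (Pool.Agent.J4.H38.SR2.dd q) ≤
          ∑ a ∈ A, ∑ b ∈ A.erase a, G C (max a b - min a b) := by
        have e2 : ∑ a ∈ A, ∑ b ∈ A.erase a, G C (max a b - min a b) =
            ∑ q ∈ A.offDiag, G C (Pool.Agent.J4.H38.SR2.dd q) := by
          have e3 : A.offDiag = (A ×ˢ A).filter (fun q => q.1 ≠ q.2) := by
            ext q
            rw [mem_offDiag, mem_filter, mem_product, and_assoc]
          rw [e3, sum_filter, sum_product]
          refine sum_congr rfl fun a _ => ?_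
          rw [← sum_filter]
          refine sum_congr ?_ fun b _ => rfl
          ext b
          rw [mem_erase, mem_filter, and_comm, ne_comm]
        rw [e2]
        refine sum_le_sum fun q hq => ?_
        exact gy_le_G hC.le y (Pool.Agent.J4.H38.SR2.dd_ne (mem_offDiag.1 hq).2.2)
      refine e1.trans (h2.trans ?_)
      exact mul_le_mul_of_nonneg_right (le_max_left _ _) (by positivity)
    · refine (sum_le_sum fun a ha => gy_le_G hC.le y (hA0 a ha)).trans (h1.trans ?_)
      exact mul_le_mul_of_nonneg_right (le_max_left _ _) (by positivity)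
  · intro F f hd hF h0 hinj ε hε
    obtain ⟨K, hK, hpoly⟩ := poly_hyps F f hd hF h0 hC.le
    have hk0 : (0 : ℝ) < k := by exact_mod_cast hk
    obtain ⟨Λ, x₀, hΛ, h⟩ := hmain (ε / (2 * ((k : ℝ) ^ k * (k : ℝ) ^ k))) K (by positivity) hK
    refine ⟨max Λ (2 * k ^ 2 / ε + 3), max x₀ 3, fun x hx M hM hfx => ?_⟩
    have hx3 : (3 : ℝ) ≤ x := (le_max_right _ _).trans hx
    have hlx : 1 ≤ Real.log x := by
      have h1 : Real.exp 1 ≤ x := le_trans (by have := Real.exp_one_lt_d9; linarith) hx3
      have := Real.log_le_log (Real.exp_pos 1) h1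
      rwa [Real.log_exp] at this
    have hM1 : Λ * Real.log x ≤ M :=
      (mul_le_mul_of_nonneg_right (le_max_left _ _) (by linarith)).trans hM
    have hM2 : (2 * k ^ 2 / ε + 3) * Real.log x ≤ M :=
      (mul_le_mul_of_nonneg_right (le_max_right _ _) (by linarith)).trans hM
    have hq0 : 0 < 2 * (k : ℝ) ^ 2 / ε := by positivity
    have hM3 : 3 * Real.log x ≤ M := by nlinarith
    have hM4 : 2 * (k : ℝ) ^ 2 / ε ≤ M := by nlinarith
    have hM3' : (3 : ℝ) ≤ M := by linarith
    have hM3n : 3 ≤ M := by exact_mod_cast hM3'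
    have hM0 : (0 : ℝ) < M := by linarith
    obtain ⟨A, hA⟩ : ∃ A, A = ((univ : Finset (Fin k)) ×ˢ Icc 1 M).image (fun q => f q.1 q.2) :=
      ⟨_, rfl⟩
    have hmemA : ∀ i, ∀ m ∈ Icc 1 M, f i m ∈ A := fun i m hm => by
      rw [hA]
      exact mem_image.2 ⟨(i, m), mem_product.2 ⟨mem_univ i, hm⟩, rfl⟩
    have hAx : A ⊆ Icc 1 (x / 2) := by
      intro a ha
      rw [hA] at ha
      obtain ⟨q, hq, rfl⟩ := mem_image.1 ha
      rw [mem_product] at hq
      have h1 := hfx q.1 q.2 hq.2
      exact mem_Icc.2 ⟨h0 q.1 q.2 (mem_Icc.1 hq.2).1, by omega⟩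
    have hAc : A.card ≤ k * M := by
      rw [hA]
      refine card_image_le.trans (le_of_eq ?_)
      rw [card_product, card_univ, Fintype.card_fin, Nat.card_Icc, Nat.add_sub_cancel]
    have hH : Λ * Real.log x ≤ ((k * M : ℕ) : ℝ) := by
      refine hM1.trans ?_
      push_cast
      have : (1 : ℝ) ≤ k := by exact_mod_cast hk
      nlinarith
    obtain ⟨Bad, hBad⟩ : ∃ Bad, Bad = (A.powersetCard k).filter (fun D => ¬ Many k (c ^ k) x D) :=
      ⟨_, rfl⟩
    have hmain2 := h x ((le_max_left _ _).trans hx) (k * M) hH A hAx hAc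
      (fun y => by rw [hA]; exact (hpoly M x y hM3n (by linarith) (fun i m hm => by have := hfx i m hm; omega)).1)
      (fun y => by rw [hA]; exact (hpoly M x y hM3n (by linarith) (fun i m hm => by have := hfx i m hm; omega)).2) Bad
      (fun D hD => by rw [hBad] at hD; exact mem_filter.1 hD)
    -- the vectors
    obtain ⟨V1, hV1⟩ : ∃ V1, V1 = (Fintype.piFinset (fun _ : Fin k => Icc 1 M)).filter
      (fun v => ¬ Function.Injective (fun i => f i (v i))) := ⟨_, rfl⟩
    obtain ⟨V2, hV2⟩ : ∃ V2, V2 = (Fintype.piFinset (fun _ : Fin k => Icc 1 M)).filter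
      (fun v => Function.Injective (fun i => f i (v i)) ∧
        ¬ Many k (c ^ k) x (univ.image (fun i => f i (v i)))) := ⟨_, rfl⟩
    have hsub : (Fintype.piFinset (fun _ : Fin k => Icc 1 M)).filter (fun v =>
            ¬ (Function.Injective (fun i => f i (v i)) ∧
              Many k (c ^ k) x (univ.image (fun i => f i (v i))))) ⊆ V1 ∪ V2 := by
      intro v hv
      rw [mem_filter] at hv
      rw [mem_union, hV1, hV2, mem_filter, mem_filter]
      by_cases h1 : Function.Injective (fun i => f i (v i))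
      · exact Or.inr ⟨hv.1, h1, fun h2 => hv.2 ⟨h1, h2⟩⟩
      · exact Or.inl ⟨hv.1, h1⟩
    have hc1 : (V1.card : ℝ) ≤ ε / 2 * (M : ℝ) ^ k := by
      have h1 := few_equal f hinj M
      rw [← hV1] at h1
      have h2 : (V1.card : ℝ) ≤ (k : ℝ) ^ 2 * (M : ℝ) ^ (k - 1) := by exact_mod_cast h1
      refine h2.trans ?_
      obtain ⟨j, rfl⟩ : ∃ j, k = j + 1 := ⟨k - 1, by omega⟩
      rw [Nat.add_sub_cancel, pow_succ (M : ℝ) j]
      have h3 : ((j + 1 : ℕ) : ℝ) ^ 2 ≤ ε / 2 * M := by
        rw [div_le_iff₀ hε] at hM4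
        linarith
      calc ((j + 1 : ℕ) : ℝ) ^ 2 * (M : ℝ) ^ j ≤ (ε / 2 * M) * (M : ℝ) ^ j :=
            mul_le_mul_of_nonneg_right h3 (by positivity)
        _ = _ := by ring
    have hc2 : (V2.card : ℝ) ≤ ε / 2 * (M : ℝ) ^ k := by
      have h1 : V2.card ≤ k ^ k * (V2.image (fun v => univ.image (fun i => f i (v i)))).card := by
        refine card_le_mul_card_image V2 (k ^ k) fun D hD => ?_
        obtain ⟨w, hw, hwD⟩ := mem_image.1 hD
        rw [hV2, mem_filter] at hw
        have hDk : D.card = k := by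
          rw [← hwD, card_image_of_injective _ hw.2.1, card_univ, Fintype.card_fin]
        have h2 : V2.filter (fun v => univ.image (fun i => f i (v i)) = D) ⊆
            Fintype.piFinset (fun i : Fin k => (Icc 1 M).filter (fun m => f i m ∈ D)) := by
          intro v hv
          rw [mem_filter, hV2, mem_filter, Fintype.mem_piFinset] at hv
          rw [Fintype.mem_piFinset]
          intro i
          rw [mem_filter]
          refine ⟨hv.1.1 i, ?_⟩
          rw [← hv.2]
          exact mem_image_of_mem (fun i => f i (v i)) (mem_univ i)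
        refine (card_le_card h2).trans ?_
        rw [Fintype.card_piFinset]
        calc ∏ i : Fin k, ((Icc 1 M).filter (fun m => f i m ∈ D)).card ≤ ∏ _i : Fin k, k := by
              refine prod_le_prod' fun i _ => ?_
              rw [← hDk]
              refine card_le_card_of_injOn (f i) ?_ ?_
              · intro m hm
                rw [mem_coe, mem_filter] at hm
                exact mem_coe.2 hm.2
              · intro a ha b hb hab
                rw [mem_coe, mem_filter, mem_Icc] at ha hb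
                exact hinj i ha.1.1 hb.1.1 hab
          _ = k ^ k := by rw [prod_const, card_univ, Fintype.card_fin]
      have h2 : (V2.image (fun v => univ.image (fun i => f i (v i)))) ⊆ Bad := by
        intro D hD
        obtain ⟨w, hw, rfl⟩ := mem_image.1 hD
        rw [hV2, mem_filter, Fintype.mem_piFinset] at hw
        rw [hBad, mem_filter, mem_powersetCard]
        refine ⟨⟨?_, ?_⟩, hw.2.2⟩
        · intro a ha
          obtain ⟨i, _, rfl⟩ := mem_image.1 ha
          exact hmemA i _ (hw.1 i)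
        · rw [card_image_of_injective _ hw.2.1, card_univ, Fintype.card_fin]
      have h3 : (V2.card : ℝ) ≤ (k : ℝ) ^ k * (Bad.card : ℝ) := by
        have : V2.card ≤ k ^ k * Bad.card := h1.trans (Nat.mul_le_mul_left _ (card_le_card h2))
        exact_mod_cast this
      refine h3.trans ((mul_le_mul_of_nonneg_left hmain2 (by positivity)).trans (le_of_eq ?_))
      push_cast
      rw [mul_pow]
      have : (k : ℝ) ^ k ≠ 0 := by positivity
      field_simp
    have hfin : (((V1 ∪ V2).card : ℕ) : ℝ) ≤ V1.card + V2.card := by exact_mod_cast card_union_le _ _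
    have hcard := card_le_card hsub
    have hcard' : (((Fintype.piFinset (fun _ : Fin k => Icc 1 M)).filter (fun v =>
            ¬ (Function.Injective (fun i => f i (v i)) ∧
              Many k (c ^ k) x (univ.image (fun i => f i (v i)))))).card : ℝ) ≤ (V1 ∪ V2).card := by
      exact_mod_cast hcard
    linarith

end Pool.Agent.Results.MP_dddec0_nt.PolynomialShiftsTwoPrimeFactors
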