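import Mathlib
import Pool.Agent.J4.H38.BP.Main

/-!
# Two consecutive primes and integers with at most two prime factors

A prime triplet is `p, p + a, p + b` with three consecutive primes. Here are two consecutive primes and almost primes, for almost all
shifts: for EVERY large `N` there is an even `g ≤ 212` such that for almost all sets `D` of `k` multiples of a fixed number `W` in `[1, H]`,
where `H` is only a large multiple of `log N` (the average distance of the primes), there are many primes `p ≤ N` for which `p + g` is the NEXT prime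
and ALL the `p + d`, `d ∈ D`, have at most two prime factors.

Method: 45 linear forms `p + h - h_i` are free of small prime factors and two of them are prime for `c N / (log N) ^ 45` integers
`p ≤ N` (methods of Maynard, Zhang and Polymath: the library has 45 forms of diameter 212, with the right order of magnitude); by the
pigeonhole principle one may fix the form `p` and the distance `g` to the next prime. For almost all shifts the integers `p + d` are as often free of
small prime factors as they should be, relative to these `p`: by duality this follows from the pair correlations of the sifted sets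
`{n : n + d without small prime factors}` relative to the integers `n` at which the 45 forms are sifted by a fundamental lemma (an
upper bound sieve). Then Richert's weighted sieve of level `111/200 > 1/2` and the large sieve inequality for the shifts, which need the
sieve density of the 45 forms and of the `p + d` together.
-/

set_option autoImplicit false

namespace Pool.Agent.Results.MP_dddec0_nt.TwoConsecutivePrimesAndP2

open Finset Filter

/-- the multiples of `W` in `[1, H]` -/
def multiples (W H : ℕ) : Finset ℕ := (Icc 1 H).filter (fun d => W ∣ d)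

open Classical in
/-- the number of the primes `p` such that `p + g ≤ N` is the NEXT prime after `p` and every `p + d`, `d ∈ D`, has at most two prime
factors (counted with multiplicity), all of them at least `N ^ (1/7)` -/
noncomputable def count (N g : ℕ) (D : Finset ℕ) : ℕ :=
  ((Icc 1 N).filter (fun p => p.Prime ∧ (p + g).Prime ∧ p + g ≤ N ∧ (∀ r : ℕ, p < r → r < p + g → ¬ r.Prime) ∧
    ∀ d ∈ D, (p + d).primeFactorsList.length ≤ 2 ∧ ∀ q ∈ (p + d).primeFactors, (N : ℝ) ^ (1 / 7 : ℝ) ≤ q)).card

section
open Pool.Agent.J4.H38.DV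
open Pool.Agent.J4.H38.BP
open Pool.Agent.H373R2.T7 (pz Vz mem_pz)

lemma piT_le {N g : ℕ} {P D : Finset ℕ} (hP : P ⊆ (Icc 1 N).filter Nat.Prime)
    (hPp : ∀ p ∈ P, p + g ≤ N ∧ (p + g).Prime ∧ ∀ r, p < r → r < p + g → ¬ r.Prime) : piT' P D N ≤ count N g D := by
  classical
  unfold piT' count
  refine card_le_card fun p hp => ?_
  rw [mem_filter] at hp ⊢
  have h5 := mem_filter.1 (hP hp.1)
  have h6 := hPp _ hp.1
  exact ⟨h5.1, h5.2, h6.2.1, h6.1, h6.2.2, hp.2⟩

lemma multiples_eq (w H : ℕ) : AW w 0 H = multiples (∏ p ∈ pz w, p) H := by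
  unfold AW multiples
  refine filter_congr fun t _ => ?_
  rw [zero_add]

/-- the product of the primes up to `w` -/
lemma W_pos (w : ℕ) : 1 ≤ ∏ p ∈ pz w, p := prod_pos fun _ hp => (mem_pz.1 hp).2.pos

/-- the number of the multiples -/
lemma card_multiples (W H : ℕ) : ((multiples W H).card : ℝ) ≤ H / W := by
  have h1 : (multiples W H).card = H / W := by
    unfold multiples
    exact Nat.Ioc_filter_dvd_card_eq_div H W
  rw [h1]
  exact Nat.cast_div_le

end

/-- **Two consecutive primes and `P_2`.** There is an absolute constant `c > 0` such that for all `k ≥ 1` and `ε > 0` there are an even `W ≥ 1`,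
`Λ` and `N₀` with the following property. For EVERY `N ≥ N₀` there is an even `g`, `2 ≤ g ≤ 212`, such that for all `H` with
`Λ log N ≤ H ≤ N / 2`, for all but at most `ε (H / W) ^ k` of the sets `D` of `k` multiples of `W` in `[1, H]`, there are at least
`c ^ k N / (log N) ^ (45 + k)` primes `p` for which `p + g ≤ N` is the NEXT prime after `p` and all the `p + d`, `d ∈ D`, have at most two
prime factors, all of them at least `N ^ (1/7)`. -/
theorem result :
    ∃ c : ℝ, 0 < c ∧ ∀ k : ℕ, 1 ≤ k → ∀ ε : ℝ, 0 < ε → ∃ (W : ℕ) (Λ : ℝ) (N₀ : ℕ), 1 ≤ W ∧ 2 ∣ W ∧ 0 < Λ ∧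
      ∀ N : ℕ, N₀ ≤ N → ∃ g : ℕ, 2 ≤ g ∧ g ≤ 212 ∧ Even g ∧ ∀ H : ℕ, Λ * Real.log N ≤ H → (H : ℝ) ≤ N / 2 →
        ((((multiples W H).powersetCard k).filter (fun D =>
          (count N g D : ℝ) < c ^ k * (N / Real.log N ^ (45 + k)))).card : ℝ) ≤ ε * ((H : ℝ) / W) ^ k := by
  classical
  obtain ⟨c, hc, hmain⟩ := Pool.Agent.J4.H38.BP.bpT
  refine ⟨c, hc, fun k hk ε hε => ?_⟩
  obtain ⟨j, rfl⟩ : ∃ j, k = j + 1 := ⟨k - 1, by omega⟩
  obtain ⟨w, hw, Λ, hΛ, h⟩ := hmain j ε hε
  obtain ⟨N₀, hN₀⟩ := eventually_atTop.1 h
  refine ⟨∏ p ∈ Pool.Agent.H373R2.T7.pz w, p, Λ, N₀, W_pos w,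
    dvd_prod_of_mem _ (Pool.Agent.H373R2.T7.mem_pz.2 ⟨hw, Nat.prime_two⟩), hΛ, fun N hN => ?_⟩
  obtain ⟨g, hg2, hg, hev, P, hP, hPp, hbad⟩ := hN₀ N hN
  refine ⟨g, hg2, hg, hev, fun H hH1 hH2 => ?_⟩
  have hH2' : 2 * H ≤ N := by
    have : (2 : ℝ) * H ≤ N := by linarith
    exact_mod_cast this
  refine (hbad H hH1 hH2' _ fun D hD => ?_).trans ?_
  · obtain ⟨b1, b2⟩ := mem_filter.1 hD
    rw [multiples_eq]
    refine ⟨b1, lt_of_le_of_lt ?_ b2⟩
    exact_mod_cast piT_le hP hPp
  · rw [multiples_eq]
    exact mul_le_mul_of_nonneg_left (pow_le_pow_left₀ (Nat.cast_nonneg _) (card_multiples _ _) _) hε.le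

end Pool.Agent.Results.MP_dddec0_nt.TwoConsecutivePrimesAndP2
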